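import Pool.Agent.H17.LX.MIXA
import Pool.Agent.H20.LX.T2

/-!
Row MIX of page LX (MP_52e316_nt).
-/

set_option autoImplicit false

namespace Pool.Agent.H17.LX

theorem pf_MIX (hNEW : Pool.Agent.H27.ZF.T_NEW) : Pool.Agent.H20.LX.T_MIX := by
  intro C₀ e c B Q z0 z lam j s hC₀ he hc hce hes hsB hQ hj h2 hlog hlam hE
  exact mixG hNEW C₀ e c B Q z0 z lam j s hC₀ he hc hce hes hsB hQ hj h2 hlog hlam hE

end Pool.Agent.H17.LX
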