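import Pool.Agent.H17.ZF.MIDA

/-!
Row MIX (MP_52e316_nt): the middle primes of one block, from a large sieve in `l²` form.
-/

set_option autoImplicit false

namespace Pool.Agent.H17.LX

open Finset Pool.Agent.H27.ZF Pool.Agent.H17.ZF

/-- the root of the elementary symmetric sum -/
theorem rootx (l : ℕ) (X R G : ℝ) (hl : 1 ≤ l) (hX : 0 ≤ X) (hG : 0 ≤ G) (hR : 0 ≤ R)
    (hRG : R ≤ G ^ l)
    (h : X ^ l / (l.factorial : ℝ) ≤ √(1 / (l.factorial : ℝ)) * R) : X ≤ √l * G := by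
  have hf : (0 : ℝ) < l.factorial := by exact_mod_cast l.factorial_pos
  have h1 : √(l.factorial : ℝ) ≤ (√(l : ℝ)) ^ l := by
    rw [Real.sqrt_le_iff]
    refine ⟨by positivity, ?_⟩
    rw [← pow_mul, mul_comm, pow_mul, Real.sq_sqrt (by positivity)]
    exact_mod_cast Nat.factorial_le_pow l
  have h2 : (l.factorial : ℝ) * √(1 / (l.factorial : ℝ)) = √(l.factorial : ℝ) := by
    rw [Real.sqrt_div zero_le_one, Real.sqrt_one]
    have h3 : √(l.factorial : ℝ) * √(l.factorial : ℝ) = l.factorial := Real.mul_self_sqrt hf.le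
    have h4 : 0 < √(l.factorial : ℝ) := Real.sqrt_pos.2 hf
    field_simp
    nlinarith
  have h5 : X ^ l ≤ (√l * G) ^ l := by
    rw [div_le_iff₀ hf] at h
    calc X ^ l ≤ √(1 / (l.factorial : ℝ)) * R * l.factorial := h
      _ = (l.factorial : ℝ) * √(1 / (l.factorial : ℝ)) * R := by ring
      _ = √(l.factorial : ℝ) * R := by rw [h2]
      _ ≤ (√(l : ℝ)) ^ l * G ^ l := by gcongr
      _ = _ := by rw [mul_pow]
  exact (pow_le_pow_iff_left₀ hX (by positivity) (by omega)).1 h5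

theorem mixG (hNEW : T_NEW) (C₀ e c B Q z0 z : ℝ) (lam : ℕ → ℂ) (j : ℕ) (s : ℂ) (hC₀ : 1 ≤ C₀)
    (he : 0 < e) (hc : 0 ≤ c) (hce : 2 * c ≤ e) (hes : e ≤ s.re) (hsB : s.re ≤ B) (hQ : 1 ≤ Q)
    (hj : 1 ≤ j) (h2 : (2 : ℝ) ^ j ≤ Q) (hlog : Real.log Q ≤ 2 ^ j)
    (hlam : ∀ p ∈ UP z0 z j, ‖lam p‖ ≤ C₀ * (p : ℝ) ^ e)
    (hE : ‖∑ S ∈ powersetCard (lf Q j 1) (UP z0 z j), ∏ p ∈ S, (lam p * (p : ℂ) ^ (-s))‖ ≤
      Q ^ c * (√(1 / (Nat.factorial (lf Q j 1) : ℝ)) *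
        (2 : ℝ) ^ ((j : ℝ) * lf Q j 1 / 2 - ((j : ℝ) - 1) * lf Q j 1 * s.re))) :
    ‖∑ p ∈ UP z0 z j, lam p * (p : ℂ) ^ (-s)‖ ≤
      8 * C₀ * (2 : ℝ) ^ B * √(Real.log Q) * (2 : ℝ) ^ (-((j : ℝ) * (s.re - 1 / 2 - e))) := by
  have hjk : (2 : ℝ) ^ (j * 1) ≤ Q := by simpa using h2
  obtain ⟨l1, l2, l3, l4⟩ := lf_facts Q j 1 hQ hj le_rfl hjk
  obtain ⟨l, hl⟩ : ∃ l, l = lf Q j 1 := ⟨_, rfl⟩
  rw [← hl] at l1 l2 l3 l4 hE
  push_cast at l3
  have hlogQ : 0 ≤ Real.log Q := Real.log_nonneg hQ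
  have hjr : (1 : ℝ) ≤ j := by exact_mod_cast hj
  have hj1 : (0 : ℝ) ≤ (j : ℝ) - 1 := by linarith
  have hlr : (1 : ℝ) ≤ l := by exact_mod_cast l1
  obtain ⟨y, hy⟩ : ∃ y : ℝ, y = (2 : ℝ) ^ (-(((j : ℝ) - 1) * (s.re - e))) := ⟨_, rfl⟩
  have hy0 : 0 < y := by rw [hy]; positivity
  obtain ⟨A, hA⟩ : ∃ A : ℝ, A = (2 : ℝ) ^ ((j : ℝ) / 2 + j * e - ((j : ℝ) - 1) * s.re) := ⟨_, rfl⟩
  have hA0 : 0 < A := by rw [hA]; positivity
  have hyA : (2 : ℝ) ^ ((j : ℝ) / 2) * y ≤ A := by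
    rw [hy, hA, ← Real.rpow_add (by norm_num)]
    refine Real.rpow_le_rpow_of_exponent_le (by norm_num) ?_
    nlinarith
  obtain ⟨K, hK⟩ : ∃ K : ℝ, K = (2 : ℝ) ^ ((j : ℝ) / 2) := ⟨_, rfl⟩
  have hK0 : 0 < K := by rw [hK]; positivity
  have hK2 : K ^ 2 = 2 ^ j := by
    rw [hK, ← Real.rpow_natCast _ 2, ← Real.rpow_mul (by norm_num), ← Real.rpow_natCast 2 j]
    congr 1
    push_cast
    ring
  rw [← hK] at hyA
  obtain ⟨D, hD⟩ : ∃ D : ℝ, D = √(Real.log Q) := ⟨_, rfl⟩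
  have hD0 : 0 ≤ D := by rw [hD]; positivity
  have hD2 : D ^ 2 = Real.log Q := by rw [hD]; exact Real.sq_sqrt hlogQ
  have hlD : (l : ℝ) ≤ 2 * D ^ 2 := by rw [hD2]; exact l4
  have hDK : D ≤ K := by
    have h3 : D ^ 2 ≤ K ^ 2 := by rw [hD2, hK2]; exact hlog
    exact (pow_le_pow_iff_left₀ hD0 hK0.le (by norm_num)).1 h3
  have hslD : √(l : ℝ) ≤ 2 * D := by
    rw [Real.sqrt_le_iff]
    exact ⟨by positivity, by nlinarith⟩
  -- the final comparison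
  have hfin : 8 * C₀ * D * A ≤
      8 * C₀ * (2 : ℝ) ^ B * D * (2 : ℝ) ^ (-((j : ℝ) * (s.re - 1 / 2 - e))) := by
    have h3 : A ≤ (2 : ℝ) ^ B * (2 : ℝ) ^ (-((j : ℝ) * (s.re - 1 / 2 - e))) := by
      rw [hA, ← Real.rpow_add (by norm_num)]
      refine Real.rpow_le_rpow_of_exponent_le (by norm_num) ?_
      nlinarith
    calc 8 * C₀ * D * A ≤ 8 * C₀ * D * ((2 : ℝ) ^ B *
          (2 : ℝ) ^ (-((j : ℝ) * (s.re - 1 / 2 - e)))) :=
          mul_le_mul_of_nonneg_left h3 (by positivity)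
      _ = _ := by ring
  rw [← hD]
  refine le_trans ?_ hfin
  -- the single terms
  have hx : ∀ p ∈ UP z0 z j, ‖lam p * (p : ℂ) ^ (-s)‖ ≤ C₀ * y := by
    intro p hp
    have hl0 := hlam p hp
    unfold UP at hp
    obtain ⟨hp1, hpp, -, -⟩ := mem_filter.1 hp
    obtain ⟨hp2, -⟩ := mem_Ioc.1 hp1
    have hp0 : (0 : ℝ) < p := by exact_mod_cast hpp.pos
    rw [norm_mul, Complex.norm_natCast_cpow_of_pos hpp.pos, Complex.neg_re]
    have h8 : (p : ℝ) ^ e * (p : ℝ) ^ (-s.re) ≤ y := by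
      calc (p : ℝ) ^ e * (p : ℝ) ^ (-s.re) = (p : ℝ) ^ (-(s.re - e)) := by
            rw [← Real.rpow_add hp0]
            congr 1
            ring
        _ ≤ ((2 : ℝ) ^ ((j : ℝ) - 1)) ^ (-(s.re - e)) := by
            refine Real.rpow_le_rpow_of_nonpos (by positivity) ?_ (by linarith)
            have h6 : ((2 ^ (j - 1) : ℕ) : ℝ) ≤ p := by exact_mod_cast hp2.le
            have h7 : (2 : ℝ) ^ ((j : ℝ) - 1) = ((2 ^ (j - 1) : ℕ) : ℝ) := by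
              push_cast
              rw [← Real.rpow_natCast 2 (j - 1), Nat.cast_sub hj]
              simp
            rw [h7]
            exact h6
        _ = y := by
            rw [hy, ← Real.rpow_mul (by norm_num)]
            congr 1
            ring
    calc ‖lam p‖ * (p : ℝ) ^ (-s.re) ≤ C₀ * (p : ℝ) ^ e * (p : ℝ) ^ (-s.re) :=
          mul_le_mul_of_nonneg_right hl0 (by positivity)
      _ = C₀ * ((p : ℝ) ^ e * (p : ℝ) ^ (-s.re)) := by ring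
      _ ≤ C₀ * y := mul_le_mul_of_nonneg_left h8 (by linarith)
  obtain ⟨x, hxd⟩ : ∃ x : ℕ → ℂ, x = fun p => lam p * (p : ℂ) ^ (-s) := ⟨_, rfl⟩
  have hxp : ∀ p ∈ UP z0 z j, ‖x p‖ ≤ C₀ * y := by
    intro p hp
    rw [hxd]
    exact hx p hp
  have hsum1 : ∑ p ∈ UP z0 z j, lam p * (p : ℂ) ^ (-s) = ∑ i : {p // p ∈ UP z0 z j}, x i := by
    rw [sum_coe_sort (UP z0 z j) x, hxd]
  rw [hsum1]
  obtain ⟨T, hT⟩ : ∃ T : ℝ, T = ‖∑ i : {p // p ∈ UP z0 z j}, x i‖ := ⟨_, rfl⟩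
  have hT0 : 0 ≤ T := by rw [hT]; positivity
  rw [← hT]
  have hcard : ((UP z0 z j).card : ℝ) ≤ 2 ^ j := by
    have h3 : (UP z0 z j).card ≤ 2 ^ j := by
      unfold UP
      refine (card_filter_le _ _).trans ?_
      rw [Nat.card_Ioc]
      exact Nat.sub_le _ _
    exact_mod_cast h3
  have hV : ∑ i : {p // p ∈ UP z0 z j}, ‖x i‖ ^ 2 ≤ K ^ 2 * (C₀ * y) ^ 2 := by
    calc ∑ i : {p // p ∈ UP z0 z j}, ‖x i‖ ^ 2 ≤ ∑ _i : {p // p ∈ UP z0 z j}, (C₀ * y) ^ 2 :=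
          sum_le_sum fun i _ => pow_le_pow_left₀ (norm_nonneg _) (hxp i i.2) 2
      _ = ((UP z0 z j).card : ℝ) * (C₀ * y) ^ 2 := by
          rw [sum_const, nsmul_eq_mul, card_univ, Fintype.card_coe]
      _ ≤ K ^ 2 * (C₀ * y) ^ 2 := by
          rw [hK2]
          exact mul_le_mul_of_nonneg_right hcard (by positivity)
  by_cases hc1 : 4 * l * (C₀ * y) ≤ T
  · by_cases hc2 : 8 * (K ^ 2 * (C₀ * y) ^ 2) * l ≤ T ^ 2
    · have h3 := hNEW {p // p ∈ UP z0 z j} (fun i => x i) (C₀ * y) (K ^ 2 * (C₀ * y) ^ 2) l l1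
        (fun i => hxp i i.2) hV (by rw [← hT]; exact hc1) (by rw [← hT]; exact hc2)
      rw [← hT, ps_sub (UP z0 z j) x l] at h3
      have h4 : ∑ S ∈ powersetCard l (UP z0 z j), ∏ p ∈ S, x p =
          ∑ S ∈ powersetCard l (UP z0 z j), ∏ p ∈ S, (lam p * (p : ℂ) ^ (-s)) := by
        rw [hxd]
      rw [h4] at h3
      have hQc : Q ^ c ≤ (2 : ℝ) ^ ((j : ℝ) * l * e) := by
        calc Q ^ c ≤ ((2 : ℝ) ^ (2 * ((j : ℝ) * 1 * l))) ^ c :=
              Real.rpow_le_rpow (by linarith) l3 hc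
          _ = (2 : ℝ) ^ (2 * ((j : ℝ) * 1 * l) * c) := by rw [← Real.rpow_mul (by norm_num)]
          _ ≤ (2 : ℝ) ^ ((j : ℝ) * l * e) := by
              refine Real.rpow_le_rpow_of_exponent_le (by norm_num) ?_
              have h5 : (j : ℝ) * l * (2 * c) ≤ j * l * e :=
                mul_le_mul_of_nonneg_left hce (by positivity)
              linarith
      have h5 := rootx l (T / 2) (Q ^ c * (2 : ℝ) ^ ((j : ℝ) * l / 2 - ((j : ℝ) - 1) * l * s.re))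
        A l1 (by positivity) hA0.le (by positivity) (by
          rw [hA, ← Real.rpow_natCast _ l, ← Real.rpow_mul (by norm_num)]
          calc Q ^ c * (2 : ℝ) ^ ((j : ℝ) * l / 2 - ((j : ℝ) - 1) * l * s.re)
              ≤ (2 : ℝ) ^ ((j : ℝ) * l * e) *
                (2 : ℝ) ^ ((j : ℝ) * l / 2 - ((j : ℝ) - 1) * l * s.re) := by gcongr
            _ = _ := by
                rw [← Real.rpow_add (by norm_num)]
                congr 1
                ring) (by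
          refine (h3.trans hE).trans (le_of_eq ?_)
          ring)
      have h6 : T ≤ 2 * (2 * D * A) := by
        have h7 : √(l : ℝ) * A ≤ 2 * D * A := mul_le_mul_of_nonneg_right hslD hA0.le
        linarith
      have h8 : 1 * (D * A) ≤ C₀ * (D * A) := mul_le_mul_of_nonneg_right hC₀ (by positivity)
      have h9 : 0 ≤ D * A := by positivity
      nlinarith
    · push Not at hc2
      have h7 : T ^ 2 ≤ (4 * C₀ * D * A) ^ 2 := by
        have h8 : 8 * (K ^ 2 * (C₀ * y) ^ 2) * l = 8 * C₀ ^ 2 * (K * y) ^ 2 * l := by ring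
        have h9 : 8 * C₀ ^ 2 * (K * y) ^ 2 * l ≤ 8 * C₀ ^ 2 * A ^ 2 * (2 * D ^ 2) := by
          gcongr
        have h10 : 8 * C₀ ^ 2 * A ^ 2 * (2 * D ^ 2) = (4 * C₀ * D * A) ^ 2 := by ring
        linarith
      have h8 : T ≤ 4 * C₀ * D * A := (pow_le_pow_iff_left₀ hT0 (by positivity) (by norm_num)).1 h7
      have h9 : 0 ≤ C₀ * D * A := by positivity
      linarith
  · push Not at hc1
    have h7 : 4 * l * (C₀ * y) ≤ 8 * C₀ * D * A := by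
      calc 4 * l * (C₀ * y) ≤ 4 * (2 * D ^ 2) * (C₀ * y) := by gcongr
        _ = 8 * C₀ * D * (D * y) := by ring
        _ ≤ 8 * C₀ * D * (K * y) := by gcongr
        _ ≤ 8 * C₀ * D * A := mul_le_mul_of_nonneg_left hyA (by positivity)
    linarith

end Pool.Agent.H17.LX
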